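import Mathlib

set_option autoImplicit false

namespace Pool.Agent.Results.MP_efe010_an.Counter

open Filter Topology

/-- Index `i` stands for `x_{i-2}`. -/
theorem result : ∃ A α : ℝ, 0 < A ∧ A < 1 ∧ 0 < α ∧ α < (2 - A + √(5 * A ^ 2 - 4 * A ^ 3)) / 2 ∧
    ∀ x : ℕ → ℝ, 0 ≤ x 0 → 0 ≤ x 1 → 0 ≤ x 2 → (∀ n, x (n + 3) = (α + x n) / (A + x (n + 2))) →
      Tendsto x atTop (𝓝 ((1 - A + √((1 - A) ^ 2 + 4 * α)) / 2)) := by
  refine ⟨3 / 4, 3 / 4, by norm_num, by norm_num, by norm_num, ?_, fun x h0 h1 h2 h => ?_⟩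
  · have : (1 : ℝ) ≤ √(5 * (3 / 4) ^ 2 - 4 * (3 / 4) ^ 3) := Real.le_sqrt_of_sq_le (by norm_num)
    linarith
  rw [show ((1 : ℝ) - 3 / 4) ^ 2 + 4 * (3 / 4) = (7 / 4) ^ 2 by norm_num,
    Real.sqrt_sq (by norm_num), show ((1 : ℝ) - 3 / 4 + 7 / 4) / 2 = 1 by norm_num]
  have p : ∀ n, 0 ≤ x n := fun n => by
    induction n using Nat.strong_induction_on with
    | _ n ih =>
    match n with
    | 0 | 1 | 2 => assumption
    | n + 3 => rw [h]; have := ih n (by omega); have := ih (n + 2) (by omega); positivity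
  have key : ∀ n, x (n + 5) = 1 / (3 / 4 / (3 / 4 + x (n + 2)) + (3 / 4 + x (n + 1)) /
      (3 / 4 * (3 / 4 + x (n + 2)) + (3 / 4 + x n))) := fun n => by
    have := p n
    have := p (n + 1)
    have := p (n + 2)
    rw [h (n + 2), h (n + 1), h n]; field_simp
  let P : ℕ → ℝ → Prop := fun n b => 1 / (1 + b) ≤ x n ∧ x n ≤ 1 + b
  have mono : ∀ n b c, 0 ≤ b → b ≤ c → P n b → P n c := fun n b c h0 h1 h2 =>
    ⟨le_trans (by gcongr) h2.1, by linarith [h2.2]⟩
  have step : ∀ n b, 0 ≤ b → P n b → P (n + 1) b → P (n + 2) b → P (n + 5) (9 / 10 * b) :=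
    fun n b hb ⟨a1, a2⟩ ⟨b1, b2⟩ ⟨c1, c2⟩ => by
      have := p n
      have := p (n + 1)
      have := p (n + 2)
      simp only [P, key]
      constructor
      · refine le_trans ?_ (one_div_le_one_div_of_le (by positivity) (b := 3 / 4 /
          (3 / 4 + 1 / (1 + b)) + (3 / 4 + (1 + b)) / (3 / 4 * (3 / 4 + 1 / (1 + b)) +
          (3 / 4 + 1 / (1 + b)))) (by gcongr))
        refine one_div_le_one_div_of_le (by positivity) ?_
        field_simp
        nlinarith [sq_nonneg b, pow_nonneg hb 3]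
      · refine le_trans (one_div_le_one_div_of_le (a := 3 / 4 / (3 / 4 + (1 + b)) +
          (3 / 4 + 1 / (1 + b)) / (3 / 4 * (3 / 4 + (1 + b)) + (3 / 4 + (1 + b))))
          (by positivity) (by gcongr)) ?_
        field_simp
        nlinarith [sq_nonneg b, pow_nonneg hb 3]
  have q : ∀ n, 0 < x (n + 3) := fun n => by
    rw [h]; have := p n; have := p (n + 2); positivity
  obtain ⟨b, hb, h5⟩ : ∃ b ≥ 0, ∀ n < 5, P (n + 3) b := by
    refine ⟨∑ i ∈ Finset.range 5, (x (i + 3) + 1 / x (i + 3)),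
      Finset.sum_nonneg fun i _ => by have := q i; positivity, fun n hn => ?_⟩
    have := Finset.single_le_sum (f := fun i => x (i + 3) + 1 / x (i + 3)) (s := Finset.range 5)
      (fun i _ => by have := q i; positivity) (Finset.mem_range.2 hn)
    have := one_div_pos.2 (q n)
    exact ⟨(one_div_le (by linarith [q n]) (q n)).2 (by linarith [q n]), by linarith⟩
  have A : ∀ n, P (n + 3) (2 * b * (49 / 50) ^ n) := fun n => by
    induction n using Nat.strong_induction_on with
    | _ n ih =>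
    rcases lt_or_ge n 5 with hn | hn
    · have : (49 / 50 : ℝ) ^ 5 ≤ (49 / 50) ^ n :=
        pow_le_pow_of_le_one (by norm_num) (by norm_num) hn.le
      exact mono _ _ _ hb (by nlinarith) (h5 n hn)
    · obtain ⟨m, rfl⟩ := Nat.exists_eq_add_of_le' hn
      have : 0 ≤ b * (49 / 50) ^ m := by positivity
      refine mono _ _ _ (by positivity) ?_ (step (m + 3) (2 * b * (49 / 50) ^ m) (by positivity)
        (ih m (by omega)) (mono _ _ _ (by positivity) ?_ (ih (m + 1) (by omega)))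
        (mono _ _ _ (by positivity) ?_ (ih (m + 2) (by omega)))) <;> rw [pow_add] <;> linarith
  have B : Tendsto (fun n : ℕ => 1 + 2 * b * (49 / 50 : ℝ) ^ n) atTop (𝓝 1) := by
    simpa using ((tendsto_pow_atTop_nhds_zero_of_lt_one (r := (49 / 50 : ℝ)) (by norm_num)
      (by norm_num)).const_mul (2 * b)).const_add 1
  rw [← tendsto_add_atTop_iff_nat 3]
  exact tendsto_of_tendsto_of_tendsto_of_le_of_le
    (by simpa using B.inv₀ one_ne_zero) B (fun n => (A n).1) fun n => (A n).2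

end Pool.Agent.Results.MP_efe010_an.Counter
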